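import Mathlib
import Pool.Agent.H355R3.UF.Stmts

set_option autoImplicit false

namespace Pool.Agent.H50R3.UF

open H355R3 H355R3.UF RegularWreathProduct

theorem taskB2 : H355R3.UF.TaskB2 := by
  intro hB p hpf D G _ _ hG hW
  have hp : p.Prime := hpf.out
  rw [← D.residual_eq_bot_iff]
  by_contra hne
  set P := D.residual G with hP
  have hPnt : Nontrivial P := (Subgroup.nontrivial_iff_ne_bot P).2 hne
  obtain ⟨f, hf⟩ := exists_surj_Zp P hG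
  let P₁ : Subgroup G :=
    { carrier := {x | ∃ hx : x ∈ P, ∀ φ : P →* Zp p, φ ⟨x, hx⟩ = 1}
      one_mem' := ⟨P.one_mem, fun φ => map_one φ⟩
      mul_mem' := by
        rintro a b ⟨ha, ha'⟩ ⟨hb, hb'⟩
        refine ⟨P.mul_mem ha hb, fun φ => ?_⟩
        have : (⟨a * b, P.mul_mem ha hb⟩ : P) = ⟨a, ha⟩ * ⟨b, hb⟩ := rfl
        rw [this, map_mul, ha', hb', one_mul]
      inv_mem' := by
        rintro a ⟨ha, ha'⟩
        refine ⟨P.inv_mem ha, fun φ => ?_⟩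
        have : (⟨a⁻¹, P.inv_mem ha⟩ : P) = (⟨a, ha⟩)⁻¹ := rfl
        rw [this, map_inv, ha', inv_one] }
  have hP₁le : P₁ ≤ P := fun x hx => hx.1
  have hP₁n : P₁.Normal := by
    refine ⟨?_⟩
    rintro x ⟨hx, hx'⟩ g
    have hconj : ∀ y ∈ P, g * y * g⁻¹ ∈ P := fun y hy => (D.residual_normal G).conj_mem y hy g
    refine ⟨hconj x hx, fun φ => ?_⟩
    let c : P →* P :=
      ((MulAut.conj g).toMonoidHom.comp P.subtype).codRestrict P (fun y => hconj y y.2)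
    exact hx' (φ.comp c)
  have hne₁ : ¬ P ≤ P₁ := by
    intro hle
    obtain ⟨g, hg⟩ := exists_ne (1 : Zp p)
    obtain ⟨x, hx⟩ := hf g
    obtain ⟨hx1, hx2⟩ := hle x.2
    exact hg (hx.symm.trans (hx2 f))
  apply hne₁
  rw [hP, D.residual_le_iff hP₁n]
  refine ⟨hP₁n, ?_⟩
  refine hB p D (G ⧸ P) hW (G ⧸ P₁)
    (QuotientGroup.map P₁ P (MonoidHom.id G) hP₁le) ?_ ?_ ?_
  · intro x
    obtain ⟨g, rfl⟩ := QuotientGroup.mk_surjective x
    exact ⟨(g : G ⧸ P₁), rfl⟩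
  · intro x hx
    obtain ⟨g, rfl⟩ := QuotientGroup.mk_surjective x
    have hg : ((g : G) : G ⧸ P) = 1 := hx
    rw [QuotientGroup.eq_one_iff] at hg
    rw [← QuotientGroup.mk_pow, QuotientGroup.eq_one_iff]
    refine ⟨P.pow_mem hg p, fun φ => ?_⟩
    have : (⟨g ^ p, P.pow_mem hg p⟩ : P) = (⟨g, hg⟩ : P) ^ p := rfl
    rw [this, map_pow]
    have h1 := pow_card_eq_one' (x := φ ⟨g, hg⟩)
    rwa [card_Zp] at h1
  · intro x hx y hy
    obtain ⟨g, rfl⟩ := QuotientGroup.mk_surjective x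
    obtain ⟨k, rfl⟩ := QuotientGroup.mk_surjective y
    have hg : ((g : G) : G ⧸ P) = 1 := hx
    have hk : ((k : G) : G ⧸ P) = 1 := hy
    rw [QuotientGroup.eq_one_iff] at hg hk
    rw [← QuotientGroup.mk_mul, ← QuotientGroup.mk_mul, QuotientGroup.eq]
    have hmem : (g * k)⁻¹ * (k * g) ∈ P := P.mul_mem (P.inv_mem (P.mul_mem hg hk)) (P.mul_mem hk hg)
    refine ⟨hmem, fun φ => ?_⟩
    have : (⟨(g * k)⁻¹ * (k * g), hmem⟩ : P)
        = ((⟨g, hg⟩ : P) * ⟨k, hk⟩)⁻¹ * (⟨k, hk⟩ * ⟨g, hg⟩) := rfl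
    rw [this, map_mul, map_inv, map_mul, map_mul, mul_comm (φ ⟨k, hk⟩), inv_mul_cancel]

end Pool.Agent.H50R3.UF
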